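import Mathlib

/-! # Project FQ, module RT: retraction onto a subgroup along an independent one -/

namespace Pool.Agent.helper76.LP

theorem exists_retract {G : Type*} [CommGroup G] (A B : Subgroup G) (h : Disjoint A B) :
    ∃ u : G → G, (∀ x, u x ∈ A) ∧ (∀ a ∈ A, ∀ x, u (a * x) = a * u x) ∧
      (∀ b ∈ B, ∀ x, u (b * x) = u x) := by
  -- representative modulo `A ⊔ B`
  let r : G → G := fun x => Quotient.out (QuotientGroup.mk x : G ⧸ (A ⊔ B))
  have hr1 : ∀ x, x * (r x)⁻¹ ∈ A ⊔ B := by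
    intro x
    obtain ⟨k, hk⟩ := QuotientGroup.mk_out_eq_mul (A ⊔ B) x
    have : r x = x * k := hk
    rw [this, mul_inv, mul_inv_cancel_left]
    exact (A ⊔ B).inv_mem k.2
  have hr2 : ∀ y ∈ A ⊔ B, ∀ x, r (y * x) = r x := by
    intro y hy x
    have : (QuotientGroup.mk (y * x) : G ⧸ (A ⊔ B)) = QuotientGroup.mk x := by
      rw [QuotientGroup.eq]
      have e : (y * x)⁻¹ * x = y⁻¹ := by
        rw [mul_inv, mul_assoc, inv_mul_cancel, mul_one]
      rw [e]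
      exact (A ⊔ B).inv_mem hy
    simp only [r, this]
  have hex : ∀ x, ∃ a : G, a ∈ A ∧ (x * (r x)⁻¹) * a⁻¹ ∈ B := by
    intro x
    obtain ⟨a, ha, b, hb, hab⟩ := Subgroup.mem_sup.1 (hr1 x)
    refine ⟨a, ha, ?_⟩
    rw [← hab, mul_comm a b, mul_inv_cancel_right]
    exact hb
  choose u hu1 hu2 using hex
  have huniq : ∀ x a, a ∈ A → (x * (r x)⁻¹) * a⁻¹ ∈ B → u x = a := by
    intro x a ha hb
    have h1 : u x * a⁻¹ ∈ A := A.mul_mem (hu1 x) (A.inv_mem ha)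
    have h2 : u x * a⁻¹ ∈ B := by
      have h3 := B.mul_mem (B.inv_mem (hu2 x)) hb
      have e : ((x * (r x)⁻¹) * (u x)⁻¹)⁻¹ * ((x * (r x)⁻¹) * a⁻¹) = u x * a⁻¹ := by
        rw [mul_inv, inv_inv, mul_comm (x * (r x)⁻¹)⁻¹ (u x), mul_assoc, inv_mul_cancel_left]
      rw [e] at h3
      exact h3
    exact mul_inv_eq_one.1 (Subgroup.disjoint_def.1 h h1 h2)
  refine ⟨u, hu1, ?_, ?_⟩
  · intro a ha x
    apply huniq
    · exact A.mul_mem ha (hu1 x)
    · rw [hr2 a (Subgroup.mem_sup_left ha)]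
      have e : a * x * (r x)⁻¹ * (a * u x)⁻¹ = (x * (r x)⁻¹) * (u x)⁻¹ := by
        rw [mul_inv]
        calc a * x * (r x)⁻¹ * (a⁻¹ * (u x)⁻¹) = (a * a⁻¹) * ((x * (r x)⁻¹) * (u x)⁻¹) := by
              simp only [mul_comm, mul_left_comm, mul_assoc]
          _ = _ := by rw [mul_inv_cancel, one_mul]
      rw [e]
      exact hu2 x
  · intro b hb x
    apply huniq
    · exact hu1 x
    · rw [hr2 b (Subgroup.mem_sup_right hb)]
      have e : b * x * (r x)⁻¹ * (u x)⁻¹ = b * ((x * (r x)⁻¹) * (u x)⁻¹) := by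
        simp only [mul_assoc]
      rw [e]
      exact B.mul_mem hb (hu2 x)

end Pool.Agent.helper76.LP
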