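import Pool.Agent.helper76.LP.Defs3
import Pool.Agent.helper54.QR.MS
import Pool.Agent.helper97.FQ.RT

/-! # Project FQ, module NE: existence of a decomposition -/

namespace Pool.Agent.helper76.LP

theorem NE_mdv_neg {G ι : Type*} [CommGroup G] (Γ : ι → Subgroup G) (L : List ι) (f : G → ℤ)
    (hf : MDv Γ L f) : MDv Γ L (fun x => - f x) := by
  induction L generalizing f with
  | nil =>
    intro x
    have h : f x = 0 := hf x
    simp [h]
  | cons i L ih =>
    intro u hu
    have h := ih (fun x => f (u * x) - f x) (hf u hu)
    have e : (fun x => - f (u * x) - - f x) = fun x => -(f (u * x) - f x) := by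
      funext x
      ring
    simp only [e]
    exact h

theorem nd_exists {G ι : Type*} [CommGroup G] (Γ : ι → Subgroup G) (L : List ι)
    (hnd : L.Nodup) (hI : Indep Γ L) (f : G → ℤ) (hf : MDv Γ L f) : GDec0 Γ L f := by
  classical
  induction L generalizing f with
  | nil =>
    refine ⟨fun _ _ => 0, by simp, ?_⟩
    intro x
    have h : f x = 0 := hf x
    simp [h]
  | cons i L ih =>
    obtain ⟨hd, hI'⟩ := hI
    have hi : i ∉ L := (List.nodup_cons.1 hnd).1
    obtain ⟨u, hu1, hu2, hu3⟩ := exists_retract (Γ i) (Pl Γ L) hd
    let ρ : G → ℤ := fun x => f ((u x)⁻¹ * x)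
    have hρ : ∀ a ∈ Γ i, ∀ x, ρ (a * x) = ρ x := by
      intro a ha x
      simp only [ρ]
      rw [hu2 a ha x]
      congr 1
      rw [mul_inv, mul_comm a⁻¹, mul_assoc, inv_mul_cancel_left]
    have hloc : MDv Γ L (fun x => f x - ρ x) := by
      apply mdv_local
      intro x
      refine ⟨fun y => -(f ((u x)⁻¹ * y) - f y), ?_, ?_⟩
      · exact NE_mdv_neg Γ L _ (hf (u x)⁻¹ ((Γ i).inv_mem (hu1 x)))
      · intro w hw
        simp only [ρ]
        rw [hu3 w hw x]
        ring
    obtain ⟨N, hN1, hN2⟩ := ih (List.nodup_cons.1 hnd).2 hI' _ hloc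
    have hne : ∀ j ∈ L, j ≠ i := by
      rintro j hj rfl
      exact hi hj
    refine ⟨Function.update N i ρ, ?_, ?_⟩
    · intro j hj a ha x
      rcases List.mem_cons.1 hj with rfl | hj'
      · rw [Function.update_self]
        exact hρ a ha x
      · rw [Function.update_of_ne (hne j hj')]
        exact hN1 j hj' a ha x
    · intro x
      rw [List.map_cons, List.sum_cons, Function.update_self]
      have e : L.map (fun j => Function.update N i ρ j x) = L.map (fun j => N j x) := by
        apply List.map_congr_left
        intro j hj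
        rw [Function.update_of_ne (hne j hj)]
      rw [e]
      have := hN2 x
      simp only at this
      linarith

end Pool.Agent.helper76.LP
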