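import Pool.Agent.helper76.LP.Defs

/-! # Project FQ, module PT: the product of the subgroups -/

namespace Pool.Agent.helper76.LP

theorem PT_card_sup {G : Type*} [CommGroup G] (A B : Subgroup G) (h : Disjoint A B) :
    Nat.card (A ⊔ B : Subgroup G) = Nat.card A * Nat.card B := by
  rw [← Nat.card_prod]
  symm
  let f : A × B → (A ⊔ B : Subgroup G) := fun p => ⟨p.1.1 * p.2.1, Subgroup.mul_mem_sup p.1.2 p.2.2⟩
  apply Nat.card_congr (Equiv.ofBijective f ⟨?_, ?_⟩)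
  · rintro ⟨a, b⟩ ⟨a', b'⟩ hab
    have h1 : a.1 * b.1 = a'.1 * b'.1 := congrArg Subtype.val hab
    have h2 : a'.1⁻¹ * a.1 = b'.1 * b.1⁻¹ := by
      rw [inv_mul_eq_iff_eq_mul, ← mul_assoc, ← h1, mul_inv_cancel_right]
    have h3 : a'.1⁻¹ * a.1 = 1 :=
      Subgroup.disjoint_def.1 h (A.mul_mem (A.inv_mem a'.2) a.2)
        (by rw [h2]; exact B.mul_mem b'.2 (B.inv_mem b.2))
    have h4 : a' = a := Subtype.ext (inv_mul_eq_one.1 h3)
    have h5 : b' = b := by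
      rw [h3] at h2
      exact Subtype.ext (mul_inv_eq_one.1 h2.symm)
    rw [h4, h5]
  · rintro ⟨y, hy⟩
    obtain ⟨a, ha, b, hb, hab⟩ := Subgroup.mem_sup.1 hy
    exact ⟨(⟨a, ha⟩, ⟨b, hb⟩), Subtype.ext hab⟩

theorem PT_card_Pl {G ι : Type*} [CommGroup G] (Γ : ι → Subgroup G) (L : List ι)
    (hI : Indep Γ L) : Nat.card (Pl Γ L) = (L.map (fun i => Nat.card (Γ i))).prod := by
  induction L with
  | nil =>
    unfold Pl
    simp
  | cons i L ih =>
    obtain ⟨hd, hI'⟩ := hI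
    have h1 : Pl Γ (i :: L) = Γ i ⊔ Pl Γ L := rfl
    rw [h1, PT_card_sup _ _ hd, ih hI', List.map_cons, List.prod_cons]

theorem Pl_eq_top {G ι : Type*} [CommGroup G] [Finite G] (Γ : ι → Subgroup G) (L : List ι)
    (hI : Indep Γ L) (h : (L.map (fun i => Nat.card (Γ i))).prod = Nat.card G) :
    Pl Γ L = ⊤ := by
  apply Subgroup.eq_top_of_card_eq
  rw [PT_card_Pl Γ L hI, h]

end Pool.Agent.helper76.LP
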