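import Pool.Agent.helper76.LP.Defs3
import Pool.Agent.helper52.QR.SP

/-! # Project FQ, module S0: the step without norms -/

namespace Pool.Agent.helper76.LP

open Finset

open Pool.Agent.helper34.DH in
theorem step0 (m : ℕ) [NeZero m] (D : ℕ) [NeZero D] (hD : D ∣ m) (c : ZMod m → ℤ)
    (hmax : ∀ x, anti c x ≠ 0 → addOrderOf x ≤ D) (hT : TateF (anti c))
    (hdec : NDec D (fun z => anti c (emb D m (z : ZMod D)))) :
    ∃ c' : ZMod m → ℤ, TateF (anti c') ∧ (∀ x, anti c' x ≠ 0 → addOrderOf x < D) ∧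
      ∃ j : ℤ, cls m c' = cls m c + j • hh := by
  classical
  obtain ⟨N, hN1, hN2, hN3⟩ := hdec
  have hD0 : 0 < D := Nat.pos_of_ne_zero (NeZero.ne D)
  have key : ∀ p : ℕ, ∃ g q : ZMod m → ℤ, p ∈ D.primeFactors →
      (∀ z : (ZMod D)ˣ, anti g (emb D m (z : ZMod D)) = N p z) ∧
      (∀ x, addOrderOf x ≠ D → anti g x = - q x) ∧ (∀ x, q x ≠ 0 → addOrderOf x = D / p) ∧
      TateF (anti g) ∧ ∃ j : ℤ, cls m g = j • hh := by
    intro p
    by_cases hp : p ∈ D.primeFactors
    · have hpp := Nat.prime_of_mem_primeFactors hp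
      have hpd := Nat.dvd_of_mem_primeFactors hp
      have : NeZero (D / p) := ⟨(Nat.div_pos (Nat.le_of_dvd hD0 hpd) hpp.pos).ne'⟩
      obtain ⟨g, q, h⟩ := SP_one m D (D / p) p hD (Nat.div_mul_cancel hpd) hpp (N p) (hN1 p hp)
        (hN3 p hp)
      exact ⟨g, q, fun _ => ⟨h.1, h.2.1, h.2.2.1, h.2.2.2.2⟩⟩
    · exact ⟨0, 0, fun h => absurd h hp⟩
  choose G Q hGQ using key
  have hanti : ∀ x, anti (fun x => c x - ∑ p ∈ D.primeFactors, G p x) x =
      anti c x - ∑ p ∈ D.primeFactors, anti (G p) x := SP_sum_anti _ _ _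
  have hfull : ∀ x, addOrderOf x = D →
      anti (fun x => c x - ∑ p ∈ D.primeFactors, G p x) x = 0 := by
    intro x hx
    obtain ⟨z, rfl⟩ := exists_emb x hx
    have h := hN2 z
    simp only at h
    rw [hanti, h, sub_eq_zero]
    exact Finset.sum_congr rfl fun p hp => ((hGQ p hp).1 z).symm
  have hrest : ∀ x, addOrderOf x ≠ D →
      anti (fun x => c x - ∑ p ∈ D.primeFactors, G p x) x =
        anti c x + ∑ p ∈ D.primeFactors, Q p x := by
    intro x hx
    rw [hanti, Finset.sum_congr rfl fun p hp => (hGQ p hp).2.1 x hx, Finset.sum_neg_distrib]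
    ring
  refine ⟨fun x => c x - ∑ p ∈ D.primeFactors, G p x, ?_, ?_, ?_⟩
  · intro t
    simp_rw [hanti, sub_mul, Finset.sum_mul, Finset.sum_sub_distrib]
    rw [hT t, Finset.sum_comm, Finset.sum_congr rfl fun p hp => (hGQ p hp).2.2.2.1 t]
    simp
  · intro x hx
    have hne : addOrderOf x ≠ D := fun h => hx (hfull x h)
    rw [hrest x hne] at hx
    by_cases h1 : anti c x = 0
    · rw [h1, zero_add] at hx
      obtain ⟨p, hp, hpx⟩ := Finset.exists_ne_zero_of_sum_ne_zero hx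
      rw [(hGQ p hp).2.2.1 x hpx]
      exact Nat.div_lt_self hD0 (Nat.prime_of_mem_primeFactors hp).one_lt
    · exact lt_of_le_of_ne (hmax x h1) hne
  · have h1 : ∀ p : ℕ, ∃ j : ℤ, p ∈ D.primeFactors → cls m (G p) = j • hh := by
      intro p
      by_cases hp : p ∈ D.primeFactors
      · obtain ⟨j, hj⟩ := (hGQ p hp).2.2.2.2
        exact ⟨j, fun _ => hj⟩
      · exact ⟨0, fun h => absurd h hp⟩
    choose j hj using h1
    refine ⟨- ∑ p ∈ D.primeFactors, j p, ?_⟩
    have h2 : cls m (fun x => c x - ∑ p ∈ D.primeFactors, G p x) =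
        cls m c - ∑ p ∈ D.primeFactors, cls m (G p) := by
      unfold cls
      simp_rw [sub_smul, Finset.sum_smul, Finset.sum_sub_distrib]
      rw [Finset.sum_comm]
    rw [h2, Finset.sum_congr rfl fun p hp => hj p hp, ← Finset.sum_smul, neg_smul, sub_eq_add_neg]

end Pool.Agent.helper76.LP
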